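import Pool.Agent.H57.RQ.Kmk
import Pool.Agent.H57.SL.Def
import Pool.Agent.H63.MA.PzS
import Pool.Agent.H63.MA.LBd

/-!
# H62 SG NV: `L(1, χ) ≠ 0` for a quadratic character which comes from a field (MP_b39724_nt, theorem NS for `p = 2`)

`nv`: `lam : Gal(Ω/F) → ZMod 2` a nonzero homomorphism of finite type, `χ` completely multiplicative, `|χ| ≤ 1`, with `χ(v) = (-1)^(lam(Frob_v))` for all `v` of prime norm outside a finite set. Then
`|L(s, χ)|` is bounded below by a positive constant for `1 < s ≤ 2`. Proof: Kummer theory (`kmk`, `kmk_fr`), density of the split primes of `F(√δ)` (`pz_spl`), `pz_all`, Euler product (`eul_two`).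
-/

set_option autoImplicit false

open scoped NumberField
open NumberField IsDedekindDomain H63.MA H57.RQ H57.SL
open scoped Classical

noncomputable section

namespace H62.SG

section one

variable {K : Type} [Field K] [NumberField K]

theorem nv_prim : IsPrimitiveRoot (-1 : K) 2 := by
  have h : IsPrimitiveRoot (-1 : K) (orderOf (-1 : K)) := IsPrimitiveRoot.orderOf _
  rwa [orderOf_neg_one, if_neg (by rw [ringChar.eq_zero]; norm_num)] at h

/-- the values are those of a Kummer character, up to a thin set -/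
theorem nv_k (δ : Kˣ) (hδ : ¬ IsPow 2 δ) (χ : Ideal (𝓞 K) →*₀ ℂ) (hχ : ∀ I, ‖χ I‖ ≤ 1)
    (T : Set (Pl K)) (hT : ∃ C : ℝ, ∀ s : ℝ, 1 < s → PZ T s ≤ C)
    (h : ∀ v ∉ T, ¬ Above 2 v ∧ χ v.asIdeal = if Spl 2 (-1 : K) v δ then 1 else -1) :
    ∃ c : ℝ, 0 < c ∧ ∀ s : ℝ, 1 < s → s ≤ 2 → c ≤ ‖LSeries (lbf χ) s‖ := by
  obtain ⟨C0, hC0, h0⟩ := eul_two K
  obtain ⟨C1, hC1⟩ := pz_all K
  obtain ⟨C2, hC2⟩ := pz_spl Nat.prime_two nv_prim hδ
  obtain ⟨C3, hC3⟩ := hT
  refine ⟨Real.exp (-(C1 + C2 + 2 * C3)) / C0, by positivity, fun s hs hs2 => ?_⟩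
  rw [← lbd_lser_eq (χ : Ideal (𝓞 K) → ℂ) (map_zero χ) hχ hs, div_le_iff₀ hC0, mul_comm _ C0]
  refine le_trans (Real.exp_le_exp.2 ?_) (h0 χ hχ s hs hs2).2
  obtain ⟨S, hS⟩ : ∃ S : Set (Pl K), S = {v : Pl K | ¬ Above 2 v ∧ Spl 2 (-1 : K) v δ} := ⟨_, rfl⟩
  have h1 := hC1 s hs hs2
  have h2 := hC2 s hs hs2
  have h3 := hC3 s hs
  rw [← hS] at h2
  have hps := pz_summable K hs
  have hsum : ∀ U : Set (Pl K), Summable fun v : Pl K => U.indicator (fun v => (nm v : ℝ) ^ (-s)) v :=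
    fun U => hps.indicator U
  have hnn : ∀ v : Pl K, 0 ≤ (nm v : ℝ) ^ (-s) := fun v => Real.rpow_nonneg (Nat.cast_nonneg _) _
  have hre : ∀ v : Pl K, |(χ v.asIdeal).re| ≤ 1 := fun v =>
    (Complex.abs_re_le_norm _).trans (hχ _)
  have hχs : Summable fun v : Pl K => (χ v.asIdeal).re * (nm v : ℝ) ^ (-s) := by
    refine Summable.of_norm_bounded hps fun v => ?_
    rw [norm_mul, Real.norm_eq_abs, Real.norm_of_nonneg (hnn v)]
    calc |(χ v.asIdeal).re| * (nm v : ℝ) ^ (-s) ≤ 1 * (nm v : ℝ) ^ (-s) :=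
          mul_le_mul_of_nonneg_right (hre v) (hnn v)
      _ = _ := one_mul _
  have key : 2 * PZ S s - PZ (Set.univ : Set (Pl K)) s - 2 * PZ T s ≤ ∑' v : Pl K, (χ v.asIdeal).re * (nm v : ℝ) ^ (-s) := by
    unfold PZ
    rw [← tsum_mul_left, ← tsum_mul_left, ← (((hsum S).mul_left 2).tsum_sub (hsum Set.univ)),
      ← ((((hsum S).mul_left 2).sub (hsum Set.univ)).tsum_sub ((hsum T).mul_left 2))]
    refine Summable.tsum_le_tsum (fun v => ?_)
      ((((hsum S).mul_left 2).sub (hsum Set.univ)).sub ((hsum T).mul_left 2)) hχs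
    have hv := hnn v
    have hr := abs_le.1 (hre v)
    by_cases hvT : v ∈ T
    · rw [Set.indicator_of_mem hvT, Set.indicator_of_mem (Set.mem_univ v)]
      by_cases hvS : v ∈ S
      · rw [Set.indicator_of_mem hvS]
        nlinarith [hr.1]
      · rw [Set.indicator_of_notMem hvS]
        nlinarith [hr.1]
    · rw [Set.indicator_of_notMem hvT, Set.indicator_of_mem (Set.mem_univ v)]
      obtain ⟨h4, h5⟩ := h v hvT
      by_cases hvS : v ∈ S
      · rw [Set.indicator_of_mem hvS]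
        rw [hS] at hvS
        rw [h5, if_pos hvS.2, Complex.one_re]
        linarith
      · rw [Set.indicator_of_notMem hvS]
        rw [hS] at hvS
        have h6 : ¬ Spl 2 (-1 : K) v δ := fun h7 => hvS ⟨h4, h7⟩
        rw [h5, if_neg h6, Complex.neg_re, Complex.one_re]
        linarith
  have h4 := abs_le.1 h1
  have h5 := abs_le.1 h2
  push_cast at h5
  linarith [h4.1, h4.2, h5.1, h5.2]

end one

theorem nv {K : Type} [Field K] [NumberField K] {Ω : Type} [Field Ω] [Algebra K Ω] [IsAlgClosure K Ω]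
    (lam : Gal(Ω/K) → ZMod 2) (hl : ∀ σ τ, lam (σ * τ) = lam σ + lam τ)
    (hft : ∃ M : IntermediateField K Ω, FiniteDimensional K M ∧ ∀ σ ∈ M.fixingSubgroup, lam σ = 0)
    (hne : ∃ σ, lam σ ≠ 0) (Q : DP K Ω) (χ : Ideal (𝓞 K) →*₀ ℂ) (hχ : ∀ I, ‖χ I‖ ≤ 1)
    (E : Finset (Pl K))
    (h : ∀ v ∉ E, ¬ Above 2 v → (nm v).Prime → χ v.asIdeal = ep 2 (lam (fr Q v))) :
    ∃ c : ℝ, 0 < c ∧ ∀ s : ℝ, 1 < s → s ≤ 2 → c ≤ ‖LSeries (lbf χ) s‖ := by
  have hz : IsPrimitiveRoot (-1 : K) (2 ^ 1) := by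
    rw [pow_one]
    exact nv_prim
  obtain ⟨δ, β, hβ, hσ⟩ := kmk (k := 1) Nat.prime_two hz lam hl hft
  have hβ0 : β ≠ 0 := by
    rintro rfl
    rw [zero_pow (by norm_num)] at hβ
    exact δ.ne_zero ((map_eq_zero _).1 hβ.symm)
  have hδ : ¬ IsPow 2 δ := by
    rintro ⟨y, hy⟩
    obtain ⟨σ, hs⟩ := hne
    have h1 : β ^ 2 = (algebraMap K Ω (y : K)) ^ 2 := by
      rw [← map_pow, ← Units.val_pow_eq_pow_val, hy]
      rw [pow_one] at hβ
      exact hβ
    have h2 : σ β = β := by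
      rcases sq_eq_sq_iff_eq_or_eq_neg.1 h1 with h3 | h3
      · rw [h3, AlgEquiv.commutes]
      · rw [h3, map_neg, AlgEquiv.commutes]
    have h3 := hσ σ
    rw [h2, map_neg, map_one] at h3
    have h4 : (lam σ).val = 1 := by
      have h5 := ZMod.val_lt (lam σ)
      have h6 : (lam σ).val ≠ 0 := by
        rw [Ne, ZMod.val_eq_zero]
        exact hs
      have h7 : (lam σ).val < 2 := h5
      omega
    rw [h4, pow_one, neg_one_mul] at h3
    have : CharZero Ω := charZero_of_injective_algebraMap (algebraMap K Ω).injective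
    exact hβ0 (self_eq_neg.1 h3)
  refine nv_k δ hδ χ hχ ({v : Pl K | ¬ (nm v).Prime} ∪ ((E : Set (Pl K)) ∪ ({v | Above 2 v} ∪ {v | ord v δ ≠ 0})))
    ?_ ?_
  · obtain ⟨C1, h1⟩ := pz_deg K
    obtain ⟨C2, h2⟩ := pz_finite (S := (E : Set (Pl K)) ∪ ({v | Above 2 v} ∪ {v | ord v δ ≠ 0}))
      (E.finite_toSet.union ((finite_above two_ne_zero).union (finite_ord δ)))
    refine ⟨C1 + C2, fun s hs => ?_⟩
    exact (pzs_union _ _ hs).trans (add_le_add (h1 s hs) (h2 s hs))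
  · intro v hv
    rw [Set.mem_union, Set.mem_union, Set.mem_union, not_or, not_or, not_or] at hv
    obtain ⟨h1, h2, h3, h4⟩ := hv
    have hp : (nm v).Prime := not_not.1 h1
    have ho : ord v δ = 0 := not_not.1 h4
    have hE : v ∉ E := fun h5 => h2 (Finset.mem_coe.2 h5)
    have ha : ¬ Above 2 v := h3
    refine ⟨ha, ?_⟩
    rw [h v hE ha hp]
    obtain ⟨π, hπ⟩ := exists_unif v
    have h5 := kmk_fr (k := 1) Nat.prime_two hz hβ hσ ha (by rw [ho]; exact dvd_zero _) hπ (Q.prime v)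
      (Q.under v) (F := fr Q v) (fr_spec Q v)
    rw [ho, zpow_zero, inv_one, mul_one] at h5
    have h6 : lam (fr Q v) = lg 2 (-1 : K) v δ := by
      exact h5
    rw [h6]
    have h7 : Spl 2 (-1 : K) v δ ↔ lg 2 (-1 : K) v δ = 0 := by
      constructor
      · intro hh
        have h8 := hh π
        rw [B_unit Nat.prime_two nv_prim ha ho, hπ, Int.cast_one, one_mul] at h8
        exact h8
      · intro hh x
        rw [B_unit Nat.prime_two nv_prim ha ho, hh, mul_zero]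
    by_cases h8 : Spl 2 (-1 : K) v δ
    · rw [if_pos h8, h7.1 h8]
      unfold ep
      simp
    · rw [if_neg h8]
      have h9 : lg 2 (-1 : K) v δ ≠ 0 := fun hh => h8 (h7.2 hh)
      have h10 : (lg 2 (-1 : K) v δ).val = 1 := by
        have h5 := ZMod.val_lt (lg 2 (-1 : K) v δ)
        have h6 : (lg 2 (-1 : K) v δ).val ≠ 0 := by
          rw [Ne, ZMod.val_eq_zero]
          exact h9
        omega
      unfold ep
      rw [h10, Nat.cast_one]
      have h11 : 2 * (Real.pi : ℂ) * Complex.I * (1 / ((2 : ℕ) : ℂ)) = Real.pi * Complex.I := by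
        push_cast
        ring
      rw [h11, Complex.exp_pi_mul_I]

end H62.SG
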